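import Pool.Agent.Work.MP_638b00_ag.ConicGeom

/-!
# Conics without real points on real hypersurfaces

Let `f` be a real form of degree `d` in `n > d` variables without nontrivial real zeros, `4` not
dividing `d`. Through every real point `p` of the projective space there is a real plane, spanned
by `p`, `β`, `γ`, such that the conic `x² + y² + z² = 0` of this plane lies on the hypersurface
`f = 0`.
-/

namespace Pool.Agent.Results.MP_638b00_ag.ConicsOnHypersurfaces

/-- Through every real point there is a real plane containing a conic without real points that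
lies on the hypersurface. -/
theorem result (n d : ℕ) (hd : ¬ 4 ∣ d) (hdn : d < n) (f : MvPolynomial (Fin n) ℝ)
    (hf : f.IsHomogeneous d)
    (hreal : ∀ x : Fin n → ℝ, x ≠ 0 → MvPolynomial.eval x f ≠ 0) (p : Fin n → ℝ) (hp : p ≠ 0) :
    ∃ β γ : Fin n → ℝ, LinearIndependent ℝ ![p, β, γ] ∧
      ∀ x y z : ℂ, x ^ 2 + y ^ 2 + z ^ 2 = 0 →
        MvPolynomial.aeval (fun i => x * (p i : ℂ) + y * (β i : ℂ) + z * (γ i : ℂ)) f = 0 := by
  obtain ⟨β, γ, h, h'⟩ :=
    Pool.Agent.Work.MP_638b00_ag.conics_fin n d hd hdn f hf hreal p hp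
  exact ⟨β, γ, h, fun x y z hxyz => h' ℂ x y z hxyz⟩

end Pool.Agent.Results.MP_638b00_ag.ConicsOnHypersurfaces
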