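import Pool.Agent.Work.MP_638b00_ag.Final

/-!
# Forms of arbitrary degree over function fields of pointless real curves

Let `K` be a finitely generated extension of `ℝ` of transcendence degree one in which `-1` is a
sum of squares (the function field of a real curve without real points). Every system of `r`
forms of positive degrees at most `D` (even degrees included) in sufficiently many variables has
a nontrivial zero over `K`; the number of variables only depends on `r` and `D`.
-/

namespace Pool.Agent.Results.MP_638b00_ag.FormsManyVariables

/-- Systems of forms in many variables over `K` have a nontrivial common zero in `K`. -/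
theorem result (r D : ℕ) : ∃ N : ℕ, ∀ (K : Type*) [Field K] [Algebra ℝ K],
    (⊤ : IntermediateField ℝ K).FG → Algebra.trdeg ℝ K = 1 → IsSumSq (-1 : K) →
    ∀ n : ℕ, N ≤ n → ∀ (f : Fin r → MvPolynomial (Fin n) K) (d : Fin r → ℕ),
      (∀ i, 0 < d i ∧ d i ≤ D ∧ (f i).IsHomogeneous (d i)) →
        ∃ x : Fin n → K, x ≠ 0 ∧ ∀ i, MvPolynomial.eval x (f i) = 0 :=
  Pool.Agent.Work.MP_638b00_ag.many_variables r D

end Pool.Agent.Results.MP_638b00_ag.FormsManyVariables
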