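import Pool.Agent.Work.MP_638b00_ag.HermPoly

/-!
# Forms in the variables and their conjugates over function fields of real curves

Let `K` be a finitely generated extension of `ℝ` of transcendence degree one, let `L = K[i]` and
let `star` be the conjugation of `L` over `K`. A system of polynomials over `L` in the variables
`u` and their conjugates `star u`, homogeneous of bidegrees `(a i, b i)` with `a i ≠ b i`, has a
nontrivial zero `u` in `L ^ n` as soon as the sum of the total degrees is less than `n`.
-/

namespace Pool.Agent.Results.MP_638b00_ag.HermitianForms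

/-- A system of forms of unbalanced bidegrees in the variables and their conjugates has a
nontrivial zero in the expected number of variables. -/
theorem result (K : Type*) [Field K] [Algebra ℝ K]
    (hfg : (⊤ : IntermediateField ℝ K).FG) (htr : Algebra.trdeg ℝ K = 1) (m n : ℕ)
    (g : Fin m → MvPolynomial (Fin n ⊕ Fin n) (QuadraticAlgebra K (-1) 0)) (a b : Fin m → ℕ)
    (hg : ∀ i, (g i).IsWeightedHomogeneous
      (Sum.elim (fun _ => ((1 : ℕ), (0 : ℕ))) (fun _ => (0, 1))) (a i, b i))
    (hab : ∀ i, a i ≠ b i) (hn : ∑ i, (a i + b i) < n) :
    ∃ u : Fin n → QuadraticAlgebra K (-1) 0, u ≠ 0 ∧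
      ∀ i, MvPolynomial.eval (Sum.elim u (fun l => star (u l))) (g i) = 0 :=
  Pool.Agent.Work.MP_638b00_ag.hermitian_tsen_lang K hfg htr m n g a b hg hab hn

end Pool.Agent.Results.MP_638b00_ag.HermitianForms
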