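import Pool.Agent.Work.MP_638b00_ag.ConicGeom

/-!
# Points of real hypersurfaces over function fields of pointless real curves

Let `K` be an extension of `ℝ` in which `-1` is a sum of two squares, or a finitely generated
extension of transcendence degree one in which `-1` is a sum of squares (the function field of a
real curve without real points). Let `f` be a real polynomial in `x_1, ..., x_n, y`, weighted
homogeneous of degree `d` for the weights `1, ..., 1, w`. If `4` does not divide `d` and
`d < n + w`, then `f` has a nontrivial zero over `K`.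
-/

namespace Pool.Agent.Results.MP_638b00_ag.RealHypersurfaces

open Pool.Agent.Work.MP_638b00_ag in
/-- Real Fano hypersurfaces of degree not divisible by four have points over `K`. -/
theorem result (K : Type*) [Field K] [Algebra ℝ K]
    (hK : (∃ a b : K, a ^ 2 + b ^ 2 = -1) ∨
      ((⊤ : IntermediateField ℝ K).FG ∧ Algebra.trdeg ℝ K = 1 ∧ IsSumSq (-1 : K)))
    (n w d : ℕ) (hn : 1 ≤ n) (hd : ¬ 4 ∣ d) (hdn : d < n + w)
    (f : MvPolynomial (Option (Fin n)) ℝ)
    (hf : f.IsWeightedHomogeneous (fun o : Option (Fin n) => o.elim w (fun _ => 1)) d) :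
    ∃ x : Option (Fin n) → K, x ≠ 0 ∧ MvPolynomial.aeval x f = 0 := by
  obtain ⟨a, b, hab⟩ : ∃ a b : K, a * a + b * b = -1 := by
    rcases hK with ⟨a, b, h⟩ | ⟨h1, h2, h3⟩
    · exact ⟨a, b, by rw [← h]; ring⟩
    · obtain ⟨𝓕⟩ := filt_of_trdeg K h1 h2
      obtain ⟨a, b, h⟩ := all_S2 𝓕 h3 (-1)
      exact ⟨a, b, h.symm⟩
  exact conic_main hab hn hdn hd hf

end Pool.Agent.Results.MP_638b00_ag.RealHypersurfaces
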